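import Pool.Agent.K4H1.BX.FinX
import Pool.Agent.K4H1.BX.Mdl
import Pool.Agent.K4H52.DH.P1

/-!
# The 3-part of the Birch and Swinnerton-Dyer conjecture for a positive proportion of twists

`E_D` is the quadratic twist by `D` of the modular curve `X_0(14)`.  Let `q` be a squarefree product
of primes `l ≠ 7` that are `1` modulo `3`.  We prove that there is a positive proportion of the
positive integers `n` such that `n` is squarefree, `n = 7` modulo `8`, and `E_{-n}` satisfies the 3-part of the conjecture of
Birch and Swinnerton-Dyer over all the subfields of degree `1, 3, 9, ...` of the `q`-th cyclotomic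
field at the same time, and the rank over all these fields is zero.

The proof combines the 3-part for one twist (descent with the isogenies of degree three of `E_{-n}`,
and modular symbols modulo `3`) under the condition that the class number of `ℚ(√-n)` is prime to `3`
with a theorem of Davenport and Heilbronn in the form: a positive proportion of the `n` with given
local conditions has this property.  The latter is proved here by counting binary cubic forms.
-/

set_option autoImplicit false

open NumberField NumberField.InfinitePlace IsDedekindDomain WeierstrassCurve MeasureTheory Filter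
  Topology

namespace Pool.Agent.Results.MP_1a91b9_nt.ThreePartPositive

open scoped Classical

open Pool.Agent.TH841.NF.D (Sha)

/-- The quadratic twist `E_D` of `X_0(14)` (`D = 1` modulo `4`), with its global minimal equation
`y² + x y + y = x³ + ((D - 1)/4) x² + ((9 D² - 1)/2) x - (23 D³ + 1)/4`.  It is isomorphic to
`Y² = X (X² + 13 D X + 128 D²)` by `X = 4 (x - D)`, `Y = 4 (2 y + x + 1)`. -/
def twist (D : ℤ) : WeierstrassCurve ℤ :=
  ⟨1, (D - 1) / 4, 1, (9 * D ^ 2 - 1) / 2, -((23 * D ^ 3 + 1) / 4)⟩

/-- The curve given by the equation of `W` over the ring `R`. -/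
abbrev base (W : WeierstrassCurve ℤ) (R : Type) [CommRing R] : WeierstrassCurve R :=
  W.map (Int.castRingHom R)

/-- The number of the affine points `(x, y)` over the ring `R`. -/
noncomputable def pts (W : WeierstrassCurve ℤ) (R : Type) [CommRing R] : ℕ :=
  Nat.card {P : R × R // (base W R).toAffine.Equation P.1 P.2}

section

variable {K : Type} [Field K] [NumberField K]

/-- `a_v = N v + 1 - #W(k_v)`, the points over the residue field `k_v` counted with the point at
infinity. -/
noncomputable def a (W : WeierstrassCurve ℤ) (v : HeightOneSpectrum (𝓞 K)) : ℤ :=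
  (Ideal.absNorm v.asIdeal : ℤ) - pts W (𝓞 K ⧸ v.asIdeal)

/-- The Euler factor of `L(W/K, s)` at `v` : `(1 - a_v N v^(-s) + N v^(1 - 2 s))⁻¹` if the
discriminant is a unit at `v`, and `(1 - a_v N v^(-s))⁻¹` otherwise. -/
noncomputable def factor (W : WeierstrassCurve ℤ) (s : ℂ) (v : HeightOneSpectrum (𝓞 K)) : ℂ :=
  (1 - (a W v : ℂ) * (Ideal.absNorm v.asIdeal : ℂ) ^ (-s) +
    if ((W.Δ : ℤ) : 𝓞 K) ∈ v.asIdeal then 0 else (Ideal.absNorm v.asIdeal : ℂ) ^ (1 - 2 * s))⁻¹

/-- The equation is minimal at the finite place `v` of `K`: no change of variables over `K` that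
keeps the coefficients integral at `v` decreases the valuation of the discriminant. -/
def MinimalAt (W : WeierstrassCurve ℤ) (v : HeightOneSpectrum (𝓞 K)) : Prop :=
  ∀ C : VariableChange K, v.valuation K (C • base W K).a₁ ≤ 1 →
    v.valuation K (C • base W K).a₂ ≤ 1 → v.valuation K (C • base W K).a₃ ≤ 1 →
    v.valuation K (C • base W K).a₄ ≤ 1 → v.valuation K (C • base W K).a₆ ≤ 1 →
    v.valuation K (C • base W K).Δ ≤ v.valuation K (base W K).Δ

/-- `E⁰(K_v)`, the group of the points of `W` over the completion `K_v` with nonsingular reduction: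
the points `(x, y)` where `x` is not integral, or one of the partial derivatives of
`y² + a₁ x y + a₃ y - x³ - a₂ x² - a₄ x - a₆` is a unit at `(x, y)`, and the point at infinity. -/
noncomputable def nonsing (W : WeierstrassCurve ℤ) (v : HeightOneSpectrum (𝓞 K)) :
    AddSubgroup (base W (v.adicCompletion K)).toAffine.Point :=
  AddSubgroup.closure {P | ∀ x y h, P = Affine.Point.some x y h →
    1 < Valued.v x ∨ Valued.v (W.a₁ * y - (3 * x ^ 2 + 2 * W.a₂ * x + W.a₄)) = 1 ∨
      Valued.v (2 * y + W.a₁ * x + W.a₃) = 1}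

/-- The Tamagawa number `c_v = [E(K_v) : E⁰(K_v)]` of a minimal equation. -/
noncomputable def c (W : WeierstrassCurve ℤ) (v : HeightOneSpectrum (𝓞 K)) : ℕ :=
  (nonsing W v).index

end

section

variable (K : Type) [Field K] [NumberField K]

/-- The product of the Tamagawa numbers. -/
noncomputable def Tam (W : WeierstrassCurve ℤ) : ℕ := ∏ᶠ v : HeightOneSpectrum (𝓞 K), c W v

/-- The 3-primary part of the Tate-Shafarevich group over `K`. -/
noncomputable abbrev Sha3 (W : WeierstrassCurve ℤ) : AddSubgroup (Sha (base W K)) :=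
  AddCommGroup.primaryComponent (Sha (base W K)) 3

/-- The torsion points over `K`. -/
def tors (W : WeierstrassCurve ℤ) : Set (base W K).toAffine.Point := {P | ∃ n : ℕ, 0 < n ∧ n • P = 0}

/-- The rank of the group of the points over `K`. -/
noncomputable def rank (W : WeierstrassCurve ℤ) : ℕ := Module.finrank ℤ (base W K).toAffine.Point

/-- `g` is a basis of the group of the points over `K` modulo torsion. -/
def IsBasis (W : WeierstrassCurve ℤ) {r : ℕ} (g : Fin r → (base W K).toAffine.Point) : Prop :=
  ∀ P : (base W K).toAffine.Point, ∃! n : Fin r → ℤ, P - ∑ i, n i • g i ∈ tors K W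

/-- `h` is the canonical height: `h(P) = lim 4^{-k} h_K(x(2^k P))`, where `h_K` is the logarithmic
height relative to `K`. -/
def IsHeight (W : WeierstrassCurve ℤ) (h : (base W K).toAffine.Point → ℝ) : Prop :=
  ∀ P : (base W K).toAffine.Point,
    Tendsto (fun k : ℕ => Height.logHeight ((2 ^ k : ℕ) • P).xRep / 4 ^ k) atTop (𝓝 (h P))

/-- The regulator, the determinant of `⟨g_i, g_j⟩ = (h(g_i + g_j) - h(g_i) - h(g_j)) / 2`. -/
noncomputable def reg (W : WeierstrassCurve ℤ) (h : (base W K).toAffine.Point → ℝ) {r : ℕ}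
    (g : Fin r → (base W K).toAffine.Point) : ℝ :=
  (Matrix.of fun i j : Fin r => (h (g i + g j) - h (g i) - h (g j)) / 2).det

end

/-- `4 x³ + b₂ x² + 2 b₄ x + b₆ = (2 y + a₁ x + a₃)²`, where `b₂ = a₁² + 4 a₂`,
`b₄ = 2 a₄ + a₁ a₃`, `b₆ = a₃² + 4 a₆`. -/
def cubic (W : WeierstrassCurve ℤ) {R : Type} [CommRing R] (x : R) : R :=
  4 * x ^ 3 + W.b₂ * x ^ 2 + 2 * W.b₄ * x + W.b₆

/-- `∫_{W(ℝ)} |ω|` with `ω = dx / (2 y + a₁ x + a₃)`, as an integral over `x`: two real points lie
over each `x` with `cubic x > 0`. -/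
noncomputable def realPeriod (W : WeierstrassCurve ℤ) : ℝ :=
  2 * ∫ x in {x : ℝ | 0 < cubic W x}, 1 / √(cubic W x)

/-- `2 ∫_{W(ℂ)} |ω ∧ ω̄|`, where `|ω ∧ ω̄| = du dv` in a local parameter `z = u + i v` with
`dz = ω`, as an integral over `x`: two points lie over a general `x`, and `|ω ∧ ω̄|` is the area
element of the plane of `x` divided by `|cubic x|`. -/
noncomputable def complexPeriod (W : WeierstrassCurve ℤ) : ℝ := 2 * (2 * ∫ x : ℂ, 1 / ‖cubic W x‖)

/-- The global period of an equation that is minimal at all finite places. -/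
noncomputable def Omega (K : Type) [Field K] [NumberField K] (W : WeierstrassCurve ℤ) : ℝ :=
  realPeriod W ^ nrRealPlaces K * complexPeriod W ^ nrComplexPlaces K

/-- The `L`-function of `W` over `K` is an entire function `L`, its order at `s = 1` is `n`, and `x` is
the analytic order of the Tate-Shafarevich group, that is
`L*(1) √|Δ_K| (#E(K)_tors)² / (Reg Ω Tam)`, where `L*(1)` is the leading coefficient at `1`: the value
of `#Ш` that is predicted by the conjecture.  (The three numbers in the denominator and the number of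
the torsion points are positive.) -/
def IsAnalyticSha (K : Type) [Field K] [NumberField K] (W : WeierstrassCurve ℤ) (n : ℕ) (x : ℂ) :
    Prop :=
  ∃ (L : ℂ → ℂ) (l : ℂ) (h : (base W K).toAffine.Point → ℝ) (r : ℕ)
    (g : Fin r → (base W K).toAffine.Point), Differentiable ℂ L ∧
    (∀ s : ℂ, 3 / 2 < s.re → HasProd (factor (K := K) W s) (L s)) ∧
    analyticOrderAt L 1 = n ∧ Tendsto (fun s => L s / (s - 1) ^ n) (𝓝[≠] 1) (𝓝 l) ∧
    IsHeight K W h ∧ IsBasis K W g ∧ 0 < reg K W h g ∧ 0 < Omega K W ∧ 0 < Tam K W ∧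
    0 < Nat.card (tors K W) ∧
    x = l * ((√|(discr K : ℝ)| : ℝ) : ℂ) * (Nat.card (tors K W) : ℂ) ^ 2 /
      (((reg K W h g * Omega K W * Tam K W : ℝ)) : ℂ)

/-- The 3-part of the conjecture of Birch and Swinnerton-Dyer for `W` over `K`: the `L`-function is
entire, its order at `s = 1` is the rank, the 3-primary part of the Tate-Shafarevich group is finite,
and the analytic order of the Tate-Shafarevich group is a rational number with the same 3-adic
valuation as the order of that 3-primary part. -/
def ThreePart (K : Type) [Field K] [NumberField K] (W : WeierstrassCurve ℤ) : Prop :=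
  ∃ x : ℚ, x ≠ 0 ∧ IsAnalyticSha K W (rank K W) x ∧ Finite (Sha3 K W) ∧
    padicValRat 3 x = padicValNat 3 (Nat.card (Sha3 K W))

/-- The twist by `-n` over the subfields of degree a power of `3` of the `q`-th cyclotomic field: the
equation is minimal, almost all the Tamagawa numbers are `1`, the group of the rational points is
finite of order prime to `3` and in particular the rank is zero, the 3-primary part of the
Tate-Shafarevich group is trivial and the 3-part of the conjecture holds. -/
def Good (q n : ℕ) : Prop :=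
  ∀ (M : Type) [Field M] [NumberField M] [IsCyclotomicExtension {q} ℚ M] (F : IntermediateField ℚ M),
    (∃ j : ℕ, Module.finrank ℚ F = 3 ^ j) →
    (∀ v : HeightOneSpectrum (𝓞 F), MinimalAt (twist (-n)) v) ∧
    {v : HeightOneSpectrum (𝓞 F) | c (twist (-n)) v ≠ 1}.Finite ∧
    Finite (base (twist (-n)) F).toAffine.Point ∧
    ¬ 3 ∣ Nat.card (base (twist (-n)) F).toAffine.Point ∧
    rank F (twist (-n)) = 0 ∧
    Nat.card (Sha3 F (twist (-n))) = 1 ∧
    ThreePart F (twist (-n))

theorem sha3_bot {A : Type*} [AddCommGroup A] (h : ∀ s : A, 3 • s = 0 → s = 0) :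
    AddCommGroup.primaryComponent A 3 = ⊥ := by
  rw [eq_bot_iff]
  intro s hs
  rw [AddSubgroup.mem_bot]
  have key : ∀ (j : ℕ) (s : A), 3 ^ j • s = 0 → s = 0 := by
    intro j
    induction j with
    | zero => intro s hs; simpa using hs
    | succ j ih =>
      intro s hs
      exact ih s (h _ (by rw [smul_smul, mul_comm, ← pow_succ]; exact hs))
  obtain ⟨j, hj⟩ := hs
  exact key j s hj

theorem main1 (n : ℕ) (hn : Squarefree n) (h8 : n % 8 = 7) (h3 : ¬ 3 ∣ n)
    (h7 : jacobiSym (-(n : ℤ)) 7 = -1)
    (k : Type) [Field k] [NumberField k] (hk : Module.finrank ℚ k = 2)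
    (hkn : ∃ x : k, x ^ 2 = -(n : k)) (hcl : ¬ 3 ∣ Fintype.card (ClassGroup (𝓞 k)))
    (q : ℕ) [NeZero q] (hq : Squarefree q)
    (hql : ∀ l : ℕ, l.Prime → l ∣ q → l % 3 = 1 ∧ jacobiSym (-(n : ℤ)) l = -1 ∧ l ≠ 7) :
    Good q n := by
  intro M _ _ _ F hF
  obtain ⟨x, hx⟩ := hkn
  obtain ⟨j, hj⟩ := hF
  obtain ⟨m1, m2, m3, m4, m5, m6, r, r0, r3, hr⟩ := Pool.Agent.K4H1.BX.mainX (n := n) (q := q)
    hn h8 h3 h7 k hk x hx hcl hq hql M F hj
  have hS : Sha3 F (twist (-n)) = ⊥ := sha3_bot m6
  have hS1 : Nat.card (Sha3 F (twist (-n))) = 1 := by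
    rw [hS]; exact AddSubgroup.card_bot
  refine ⟨m1, m2, m3, m4, m5, hS1, r, r0, ?_, ?_, ?_⟩
  · have e : rank F (twist (-n)) = 0 := m5
    rw [e]
    exact hr
  · rw [hS]; infer_instance
  · rw [hS1, r3]; simp

/-- **Main theorem.** Let `q` be a squarefree product of primes `l = 1` modulo `3`, `l ≠ 7`.  There is
a positive proportion of the positive integers `n` such that `n` is squarefree, `n = 7` modulo `8`, and
the twist of `X_0(14)` by `-n` satisfies the 3-part of the conjecture of Birch and Swinnerton-Dyer, with rank zero,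
over all the subfields of the `q`-th cyclotomic field whose degree is a power of `3`. -/
theorem result (q : ℕ) (hq : Squarefree q) (hql : ∀ l : ℕ, l.Prime → l ∣ q → l % 3 = 1 ∧ l ≠ 7) :
    ∃ d > (0 : ℝ), ∀ᶠ X : ℕ in atTop,
      d * X ≤ (((Finset.range (X + 1)).filter fun n =>
        Squarefree n ∧ n % 8 = 7 ∧ Good q n).card : ℝ) := by
  have hq0 : q ≠ 0 := hq.ne_zero
  haveI : NeZero q := ⟨hq0⟩
  have hS : ∀ l ∈ insert 7 q.primeFactors, l.Prime ∧ 5 ≤ l := by
    intro l hl
    rw [Finset.mem_insert] at hl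
    rcases hl with rfl | hl
    · exact ⟨by norm_num, by norm_num⟩
    · have hlp := Nat.prime_of_mem_primeFactors hl
      have h1 := (hql l hlp (Nat.dvd_of_mem_primeFactors hl)).1
      refine ⟨hlp, ?_⟩
      by_contra hlt
      push Not at hlt
      have := hlp.two_le
      interval_cases l <;> first | omega | (revert hlp; decide)
  obtain ⟨d, hd, hX⟩ := Pool.Agent.K4H52.DH.P1 (insert 7 q.primeFactors) hS
  refine ⟨d, hd, ?_⟩
  filter_upwards [hX] with X hX
  refine hX.trans ?_
  norm_cast
  refine Finset.card_le_card ?_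
  intro n hn
  rw [Finset.mem_filter] at hn ⊢
  obtain ⟨hr, h1, h2, h3, h4, h5⟩ := hn
  obtain ⟨k, _, _, hk, hkn⟩ := Pool.Agent.K4H1.BX.exists_model (n := n) (by omega)
  refine ⟨hr, h1, h2, main1 n h1 h2 h3 ?_ k hk hkn (h5 k hk hkn) q hq ?_⟩
  · exact h4 7 (Finset.mem_insert_self _ _)
  · intro l hl hlq
    exact ⟨(hql l hl hlq).1, h4 l (Finset.mem_insert_of_mem (Nat.mem_primeFactors.2 ⟨hl, hlq, hq0⟩)),
      (hql l hl hlq).2⟩

end Pool.Agent.Results.MP_1a91b9_nt.ThreePartPositive
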